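import Mathlib

namespace Pool.Agent.H.MP_5f9c07_co

open Matroid

variable {α : Type}

open Classical in
noncomputable def chi [Fintype α] (M : Matroid α) (x : ℤ) : ℤ :=
  ∑ X ∈ Finset.univ.filter (fun X : Finset α => (↑X : Set α) ⊆ M.E),
    (-1 : ℤ) ^ X.card * x ^ ((M.eRk M.E).toNat - (M.eRk (↑X : Set α)).toNat)

def Rep (F : Type) [Field F] (M : Matroid α) : Prop :=
  ∃ (n : ℕ) (v : α → Fin n → F), ∀ I ⊆ M.E, (M.Indep I ↔ LinearIndepOn F v I)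

def Simp (M : Matroid α) : Prop := ∀ e ∈ M.E, ∀ f ∈ M.E, M.Indep {e, f}

def Low (F : Type) [Fintype F] (k : ℕ) [Fintype α] (M : Matroid α) : Prop :=
  ∃ j ≤ k, 0 < chi M (Fintype.card F ^ j)

def Tang (F : Type) [Field F] [Fintype F] (k : ℕ) [Fintype α] (M : Matroid α) : Prop :=
  Rep F M ∧ Simp M ∧ ¬ Low F k M ∧ ∀ N, N <m M → Simp N → Low F k N

def Modu (M : Matroid α) (H : Set α) : Prop :=
  M.IsFlat H ∧ ∀ X, M.IsFlat X → M.eRk H + M.eRk X = M.eRk (H ∪ X) + M.eRk (H ∩ X)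

def ModHyp (M : Matroid α) (H : Set α) : Prop := Modu M H ∧ M.eRk H + 1 = M.eRk M.E

def SS (M : Matroid α) : Prop := ∃ X : ℕ → Set α,
  (∀ i : ℕ, i ≤ M.eRk M.E → Modu M (X i) ∧ M.eRk (X i) = i) ∧
    ∀ i : ℕ, i + 1 ≤ M.eRk M.E → X i ⊆ X (i + 1)

def Normal (m : ℕ) (M : Matroid α) : Prop := ∃ K Q : Matroid (Sym2 (Fin m)),
  K.E = {e | ¬ e.IsDiag} ∧
  (∀ I ⊆ K.E, (K.Indep I ↔ (SimpleGraph.fromEdgeSet I).IsAcyclic)) ∧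
  Q.E = K.E ∧ (∀ X, Q.IsFlat X → K.IsFlat X) ∧
  ∃ S ⊆ Q.E, (∀ e ∈ S, ∀ f ∈ S, Q.Indep {e, f}) ∧
    (∀ e ∈ Q.E, Q.Indep {e} → ∃ f ∈ S, e = f ∨ ¬ Q.Indep {e, f}) ∧
    ∃ g : α → Sym2 (Fin m), Set.InjOn g M.E ∧ g '' M.E = S ∧
      ∀ I ⊆ M.E, (M.Indep I ↔ Q.Indep (g '' I))

end Pool.Agent.H.MP_5f9c07_co
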