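import Mathlib
import Pool.Agent.H.MP_5f9c07_co.D

namespace Pool.Agent.H.MP_5f9c07_co

open Set Submodule Module Matroid

variable {α F V : Type} [Field F] [AddCommGroup V] [Module F V] {M : Matroid α} {v : α → V}

def Rp (F : Type) [Field F] [Module F V] (M : Matroid α) (v : α → V) : Prop :=
  ∀ I ⊆ M.E, (M.Indep I ↔ LinearIndepOn F v I)

theorem Rp.cl (h : Rp F M v) {X : Set α} (hX : X ⊆ M.E) {e : α} (he : e ∈ M.E) :
    e ∈ M.closure X ↔ v e ∈ span F (v '' X) := by
  obtain ⟨I, hI⟩ := M.exists_isBasis X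
  have k (x) (hx : x ∈ M.E) : x ∈ M.closure I ↔ v x ∈ span F (v '' I) := by
    have := (h I hI.indep.subset_ground).1 hI.indep
    rw [hI.indep.mem_closure_iff', h _ (insert_subset hx hI.indep.subset_ground),
      linearIndepOn_insert_iff]
    have : x ∈ I → v x ∈ span F (v '' I) := fun q => subset_span ⟨x, q, rfl⟩
    tauto
  rw [← hI.closure_eq_closure, k e he]
  refine ⟨fun q => span_mono (image_mono hI.subset) q, fun q => span_le.2 ?_ q⟩
  rintro _ ⟨x, hx, rfl⟩
  exact (k x (hX hx)).1 (hI.subset_closure hx)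

theorem rp_of_cl (h : ∀ X ⊆ M.E, ∀ e ∈ M.E, e ∈ M.closure X ↔ v e ∈ span F (v '' X)) :
    Rp F M v := fun I hI => by
  rw [indep_iff_forall_notMem_closure_sdiff', linearIndepOn_iff_notMem_span, and_iff_right hI]
  exact forall₂_congr fun e he => (h _ (sdiff_subset.trans hI) e (hI he)).not

theorem Rp.flat (h : Rp F M v) {X : Set α} :
    M.IsFlat X ↔ X ⊆ M.E ∧ ∀ e ∈ M.E, v e ∈ span F (v '' X) → e ∈ X := by
  refine ⟨fun q => ⟨q.subset_ground, fun e he r => ?_⟩, fun ⟨p, q⟩ => isFlat_iff_closure_eq.2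
    (subset_antisymm (fun e he => ?_) (M.subset_closure X))⟩
  · exact q.closure ▸ (h.cl q.subset_ground he).2 r
  · exact q e (mem_ground_of_mem_closure he) ((h.cl p (mem_ground_of_mem_closure he)).1 he)

theorem Rp.minor (h : Rp F M v) {C : Set α} (hC : C ⊆ M.E) (D : Set α) :
    Rp F (M ／ C ＼ D) ((span F (v '' C)).mkQ ∘ v) := by
  refine rp_of_cl fun X hX e he => ?_
  have h1 : X ⊆ M.E := fun x q => (hX q).1.1
  rw [delete_closure_eq_of_disjoint _ (disjoint_left.2 fun x q => (hX q).2), contract_closure_eq,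
    mem_sdiff, mem_sdiff, and_iff_left he.2, and_iff_left he.1.2, h.cl (union_subset h1 hC) he.1.1,
    image_comp, ← map_span, image_union, span_union, sup_comm, ← comap_map_mkQ, mem_comap]
  rfl

theorem li_rk [Finite α] {I : Set α} (h : LinearIndepOn F v I) :
    finrank F (span F (v '' I)) = I.ncard := by
  have := Fintype.ofFinite I
  rw [image_eq_range, finrank_span_eq_card h, ← Nat.card_eq_fintype_card, Nat.card_coe_set_eq]

theorem Rp.rk [Finite α] (h : Rp F M v) {X : Set α} (hX : X ⊆ M.E) :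
    M.eRk X = finrank F (span F (v '' X)) := by
  obtain ⟨I, hI⟩ := M.exists_isBasis X
  have : span F (v '' X) = span F (v '' I) := le_antisymm (span_le.2 (by
    rintro _ ⟨x, hx, rfl⟩
    exact (h.cl hI.indep.subset_ground (hX hx)).1 (hI.subset_closure hx)))
      (span_mono (image_mono hI.subset))
  rw [hI.eRk_eq_encard, this, li_rk ((h I hI.indep.subset_ground).1 hI.indep),
    (toFinite I).cast_ncard_eq]

theorem vm [Finite α] (F : Type) [Field F] [Module F V] (v : α → V) (E : Set α) :
    ∃ M : Matroid α, M.E = E ∧ Rp F M v := by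
  refine ⟨(IndepMatroid.ofFinite (E := E) (toFinite _) (fun I => I ⊆ E ∧ LinearIndepOn F v I)
    ⟨empty_subset _, linearIndepOn_empty F v⟩ (fun _ _ h s => ⟨s.trans h.1, h.2.mono s⟩)
    (fun I J hI hJ h => ?_) fun _ h => h.1).matroid, rfl, fun I hI => and_iff_right hI⟩
  by_contra z
  push Not at z
  have : FiniteDimensional F (span F (v '' I)) := .span_of_finite F ((toFinite I).image v)
  refine (finrank_mono (s := span F (v '' J)) (t := span F (v '' I)) (span_le.2 ?_)).not_gt
    (by rwa [li_rk hI.2, li_rk hJ.2])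
  rintro _ ⟨e, he, rfl⟩
  by_cases q : e ∈ I
  · exact subset_span ⟨e, q, rfl⟩
  by_contra r
  exact z e he q (insert_subset (hJ.1 he) hI.1) ((linearIndepOn_insert q).2 ⟨hI.2, r⟩)

theorem cnt [Fintype F] [FiniteDimensional F V] (W : Submodule F V) (j : ℕ) :
    {f : V →ₗ[F] (Fin j → F) | W ≤ LinearMap.ker f}.ncard =
      (Fintype.card F ^ j) ^ (finrank F V - finrank F W) := by
  have : {f : V →ₗ[F] (Fin j → F) | W ≤ LinearMap.ker f} =
      range fun g : V ⧸ W →ₗ[F] (Fin j → F) => g ∘ₗ W.mkQ := by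
    ext f
    refine ⟨fun h => ⟨W.liftQ f h, W.liftQ_mkQ f h⟩, ?_⟩
    rintro ⟨g, rfl⟩ x hx
    simp [(Submodule.Quotient.mk_eq_zero W).2 hx]
  rw [this, ncard_range_of_injective fun a b h => W.linearMap_qext h,
    Module.natCard_eq_pow_finrank (K := F), finrank_linearMap, ← W.finrank_quotient_add_finrank]
  simp [← pow_mul, mul_comm]

theorem Rp.crit [Fintype α] [Fintype F] [FiniteDimensional F V] (h : Rp F M v) (j : ℕ) :
    0 < chi M (Fintype.card F ^ j) ↔ ∃ f : V →ₗ[F] (Fin j → F), ∀ e ∈ M.E, f (v e) ≠ 0 := by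
  classical
  have : Finite V := Module.finite_of_finite F
  have : Fintype (V →ₗ[F] (Fin j → F)) := @Fintype.ofFinite _ (DFunLike.finite _)
  have p : (0 : ℤ) < (Fintype.card F ^ j) ^ (finrank F V - finrank F (span F (v '' M.E))) := by
    have := Fintype.card_pos (α := F)
    positivity
  have k : chi M (Fintype.card F ^ j) * (Fintype.card F ^ j) ^
      (finrank F V - finrank F (span F (v '' M.E))) =
      ∑ f : V →ₗ[F] (Fin j → F), if ∀ e ∈ M.E, f (v e) ≠ 0 then 1 else 0 := by
    have e1 (f : V →ₗ[F] (Fin j → F)) : (if ∀ e ∈ M.E, f (v e) ≠ 0 then 1 else 0 : ℤ) =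
        ∑ X ∈ Finset.univ.filter (fun X : Finset α => (↑X : Set α) ⊆ M.E),
          (-1) ^ X.card * if span F (v '' X) ≤ LinearMap.ker f then 1 else 0 := by
      have := Finset.sum_powerset_neg_one_pow_card
        (x := Finset.univ.filter fun e => e ∈ M.E ∧ f (v e) = 0)
      simp only [mul_ite, mul_one, mul_zero, ← Finset.sum_filter, Finset.filter_filter]
      convert this.symm using 2
      · simp [Finset.filter_eq_empty_iff]
      · ext X
        simp [span_le, subset_def, Finset.subset_iff, forall_and]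
    simp only [e1]
    rw [Finset.sum_comm, chi, Finset.sum_mul]
    refine Finset.sum_congr rfl fun X hX => ?_
    have hX := (Finset.mem_filter.1 hX).2
    have := Submodule.finrank_mono (span_mono (R := F) (image_mono (f := v) hX))
    have := finrank_le (span F (v '' M.E))
    rw [← Finset.mul_sum, Finset.sum_boole, ← ncard_coe_finset (Finset.filter _ _), Finset.coe_filter_univ, cnt,
      h.rk hX, h.rk Subset.rfl, mul_assoc, ← pow_add]
    push_cast
    congr 2
    simp only [ENat.toNat_natCast]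
    omega
  rw [← mul_pos_iff_of_pos_right p, k, Finset.sum_boole, Nat.cast_pos, Finset.card_pos]
  simp [Finset.Nonempty]

end Pool.Agent.H.MP_5f9c07_co
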