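import Mathlib
import Pool.Agent.H.MP_5f9c07_co.A

namespace Pool.Agent.H.MP_5f9c07_co

open Set Submodule Module Matroid

variable {α F V : Type} [Field F] [AddCommGroup V] [Module F V] {M : Matroid α} {v : α → V}

theorem Rp.low [Fintype α] [Fintype F] [FiniteDimensional F V] (h : Rp F M v) {k : ℕ} :
    Low F k M ↔ ∃ f : V →ₗ[F] (Fin k → F), ∀ e ∈ M.E, f (v e) ≠ 0 := by
  refine ⟨fun ⟨j, hj, q⟩ => ?_, fun q => ⟨k, le_rfl, (h.crit k).2 q⟩⟩
  obtain ⟨f, hf⟩ := (h.crit j).1 q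
  obtain ⟨g, hg⟩ := (finrank_le_iff_exists_linearMap (R := F) (M := Fin j → F)
    (M' := Fin k → F)).1 (by simpa using hj)
  exact ⟨g ∘ₗ f, fun e he r => hf e he (hg (r.trans g.map_zero.symm))⟩

theorem Rp.mlow [Fintype α] [Fintype F] [FiniteDimensional F V] (h : Rp F M v) {k : ℕ}
    {C : Set α} (hC : C ⊆ M.E) (D : Set α) : Low F k (M ／ C ＼ D) ↔ ∃ f : V →ₗ[F] (Fin k → F),
      (∀ e ∈ C, f (v e) = 0) ∧ ∀ e ∈ M.E, e ∉ C → e ∉ D → f (v e) ≠ 0 := by
  rw [(h.minor hC D).low]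
  refine ⟨fun ⟨f, q⟩ => ⟨f ∘ₗ mkQ _, fun e he => ?_, fun e a b c => q e ⟨⟨a, b⟩, c⟩⟩,
    fun ⟨f, p, q⟩ => ⟨liftQ _ f (span_le.2 ?_), fun e he => q e he.1.1 he.1.2 he.2⟩⟩
  · rw [LinearMap.comp_apply, mkQ_apply, (Submodule.Quotient.mk_eq_zero _).2
      (subset_span (mem_image_of_mem v he)), map_zero]
  · rintro _ ⟨e, he, rfl⟩
    exact p e he

theorem Rp.ne (h : Rp F M v) {e : α} (q : M.Indep {e}) : v e ≠ 0 :=
  ((h _ q.subset_ground).1 q).ne_zero rfl

theorem Rp.ne' (h : Rp F M v) (s : Simp M) {e : α} (he : e ∈ M.E) : v e ≠ 0 :=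
  h.ne (by simpa using s e he e he)

theorem Rp.par (h : Rp F M v) (s : Simp M) {e f : α} (he : e ∈ M.E) (hf : f ∈ M.E) {c : F}
    (q : c • v e = v f) : e = f := by
  by_contra n
  exact (linearIndepOn_pair_iff v n (h.ne' s he)).1 ((h _ (pair_subset he hf)).1 (s e he f hf)) c q

theorem Rp.simp (h : Rp F M v) (h0 : ∀ e ∈ M.E, v e ≠ 0)
    (h1 : ∀ e ∈ M.E, ∀ f ∈ M.E, ∀ c : F, c • v e = v f → e = f) : Simp M := fun e he f hf => by
  rw [h _ (pair_subset he hf)]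
  by_cases n : e = f
  · simpa [n] using h0 f hf
  · exact (linearIndepOn_pair_iff v n (h0 e he)).2 fun c q => n (h1 e he f hf c q)

theorem Rp.tang [Fintype α] [Fintype F] [FiniteDimensional F V] (h : Rp F M v) (s : Simp M) {k : ℕ}
    (T : ∀ C ⊆ M.E, C.Nonempty → ∃ f : V →ₗ[F] (Fin k → F), (∀ e ∈ C, f (v e) = 0) ∧
      ∀ e ∈ M.E, f (v e) = 0 → v e ∈ span F (v '' C))
    {N : Matroid α} (hN : N <m M) (l : ∀ e ∈ N.E, N.Indep {e}) : Low F k N := by
  obtain ⟨C, D, hC, hD, -, rfl⟩ := hN.isMinor.exists_eq_contract_delete_disjoint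
  rw [h.mlow hC]
  rcases C.eq_empty_or_nonempty with rfl | n
  · obtain ⟨d, hd⟩ : D.Nonempty := nonempty_iff_ne_empty.2 fun q => hN.ne (by simp [q])
    obtain ⟨f, -, q⟩ := T {d} (singleton_subset_iff.2 (hD hd)) (singleton_nonempty d)
    refine ⟨f, by simp, fun e he _ r z => ?_⟩
    obtain ⟨c, hc⟩ := mem_span_singleton.1 (image_singleton ▸ q e he z)
    exact r (h.par s (hD hd) he hc ▸ hd)
  obtain ⟨f, p, q⟩ := T C hC n
  exact ⟨f, p, fun e a b c z => (h.minor hC D).ne (l e ⟨⟨a, b⟩, c⟩)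
    ((Submodule.Quotient.mk_eq_zero _).2 (q e a z))⟩

theorem nomod [Finite α] (s : Simp M) {L Y Z : Set α} (h : Modu M L) (hY : M.IsFlat Y)
    (d : ∀ x ∈ L, x ∉ Y) (a : L ⊆ Z) (b : Y ⊆ Z) (r : M.eRk L + 1 = M.eRk Z) {x y : α}
    (hx : x ∈ Y) (hy : y ∈ Y) : x = y := by
  by_contra n
  have h1 := h.2 Y hY
  rw [show L ∩ Y = ∅ from eq_empty_of_forall_notMem fun x q => d x q.1 q.2, eRk_empty,
    add_zero] at h1
  have h2 := M.eRk_mono (union_subset a b)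
  have h3 := M.eRk_mono (pair_subset hx hy)
  rw [(s x (hY.subset_ground hx) y (hY.subset_ground hy)).eRk_eq_encard, encard_pair n] at h3
  rw [← h1, ← r, ENat.add_le_add_iff_left ((M.eRk_le_encard L).trans_lt
    (toFinite L).encard_lt_top).ne] at h2
  exact absurd (h3.trans h2) (by decide)

theorem modu_of (s : Simp M) {H : Set α} (h : M.IsFlat H)
    (d : ∀ x ∈ M.E, ∀ y ∈ M.E, x ∉ H → y ∉ H → x ≠ y → ∃ z ∈ H, z ∈ M.closure {x, y}) :
    Modu M H := by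
  refine ⟨h, fun Y hY => le_antisymm ?_ (add_comm (M.eRk (H ∩ Y)) _ ▸
    M.eRk_inter_add_eRk_union_le H Y)⟩
  by_cases q : Y ⊆ H
  · rw [union_eq_self_of_subset_right q, inter_eq_self_of_subset_right q]
  obtain ⟨y, hy, q⟩ := not_subset.1 q
  have e := hY.subset_ground
  have h1 : M.eRk Y ≤ M.eRk (H ∩ Y) + 1 := by
    refine le_trans ?_ (M.eRk_insert_le_add_one y _)
    rw [← M.eRk_closure_eq (insert _ _)]
    have u : insert y (H ∩ Y) ⊆ M.E := insert_subset (e hy) (inter_subset_right.trans e)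
    refine M.eRk_mono fun x hx => ?_
    by_cases a : x ∈ H
    · exact M.subset_closure _ u (.inr ⟨a, hx⟩)
    by_cases b : x = y
    · exact M.subset_closure _ u (.inl b)
    obtain ⟨z, z1, z2⟩ := d x (e hx) y (e hy) a q b
    have z3 : z ∈ Y := hY.closure ▸ M.closure_subset_closure (pair_subset hx hy) z2
    refine M.closure_subset_closure (pair_subset (.inr ⟨z1, z3⟩) (.inl rfl))
      (mem_closure_insert (fun r => ?_) z2)
    have n : z ≠ y := fun r => q (r ▸ z1)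
    exact ((s z (e z3) y (e hy)).notMem_closure_sdiff_of_mem (.inl rfl)) (by
      rwa [insert_sdiff_of_mem _ (mem_singleton _), sdiff_singleton_eq_self (by simpa using n)])
  have h2 := M.eRk_mono (insert_subset (.inr hy) subset_union_left : insert y H ⊆ H ∪ Y)
  rw [eRk_insert_eq_add_one ⟨e hy, h.closure.symm ▸ q⟩] at h2
  calc _ ≤ M.eRk H + 1 + M.eRk (H ∩ Y) := by rw [add_assoc, add_comm 1]; gcongr
    _ ≤ _ := by gcongr

open SimpleGraph in
theorem reach {W : Type} [Fintype W] [LinearOrder W] {J : Set (Sym2 W)} {a b : W} :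
    (fromEdgeSet J).Reachable a b ↔ Pi.single a 1 - Pi.single b 1 ∈
      span F ((fun e : Sym2 W => (Pi.single e.inf 1 - Pi.single e.sup 1 : W → F)) '' J) := by
  classical
  constructor
  · rintro ⟨p⟩
    induction p with
    | nil => simp
    | @cons a c b h p ih =>
      rw [← sub_add_sub_cancel _ (Pi.single c 1)]
      refine add_mem ?_ ih
      have := subset_span (R := F) (mem_image_of_mem
        (fun e : Sym2 W => (Pi.single e.inf 1 - Pi.single e.sup 1 : W → F)) h.1)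
      rcases le_total a c with q | q
      · simpa [q] using this
      · simpa [q] using neg_mem this
  intro h
  let f := Fintype.linearCombination F fun x => if (fromEdgeSet J).Reachable a x then (1 : F) else 0
  have : span F ((fun e : Sym2 W => (Pi.single e.inf 1 - Pi.single e.sup 1 : W → F)) '' J) ≤
      LinearMap.ker f := span_le.2 (by
    rintro _ ⟨e, he, rfl⟩
    induction e with | _ x y
    have : (fromEdgeSet J).Reachable a x ↔ (fromEdgeSet J).Reachable a y := by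
      by_cases q : x = y
      · rw [q]
      have r : (fromEdgeSet J).Adj x y := ⟨he, q⟩
      exact ⟨(·.trans r.reachable), (·.trans r.symm.reachable)⟩
    rcases le_total x y with q | q <;> simp [f, q, this])
  by_contra n
  simpa [f, n] using this h

theorem Rp.normal (h : Rp F M v) (s : Simp M) {m : ℕ} (p : Fin (m + 1) → V)
    (h1 : ∀ e ∈ M.E, ∃ a b, ∃ c : F, v e = c • (p a - p b))
    (h2 : ∀ a b, p a ≠ p b → ∃ e ∈ M.E, ∃ c : F, p a - p b = c • v e) : Normal (m + 1) M := by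
  let x (e : Sym2 (Fin (m + 1))) : Fin (m + 1) → F := Pi.single e.inf 1 - Pi.single e.sup 1
  let L := Fintype.linearCombination F p
  have hL (e) : L (x e) = p e.inf - p e.sup := by simp [L, x]
  obtain ⟨K, k1, k2⟩ := vm F x {e | ¬ e.IsDiag}
  obtain ⟨Q, q1, q2⟩ := vm F (L ∘ x) {e | ¬ e.IsDiag}
  have (e : α) : ∃ z, ∃ c : Fˣ, e ∈ M.E → z ∈ Q.E ∧ L (x z) = c • v e := by
    by_cases he : e ∈ M.E
    · obtain ⟨a, b, c, q⟩ := h1 e he
      have n := h.ne' s he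
      have c0 : c ≠ 0 := fun r => n (by simp [q, r])
      have ab : a ≠ b := fun r => n (by simp [q, r])
      rcases le_total a b with r | r
      · exact ⟨s(a, b), (Units.mk0 c c0)⁻¹, fun _ => ⟨by simpa [q1] using ab, by
          simp [hL, r, q, Units.smul_def, c0]⟩⟩
      · exact ⟨s(a, b), -(Units.mk0 c c0)⁻¹, fun _ => ⟨by simpa [q1] using ab, by
          simp [hL, r, q, Units.smul_def, c0]⟩⟩
    exact ⟨s(0, 0), 1, fun q => absurd q he⟩
  choose g c hg using this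
  have inj : InjOn g M.E := fun e he f hf q => h.par s he hf (c := ((c f)⁻¹ * c e : Fˣ)) (by
    rw [← Units.smul_def, mul_smul, ← (hg e he).2, q, (hg f hf).2, inv_smul_smul])
  have ind (I) (hI : I ⊆ M.E) : M.Indep I ↔ Q.Indep (g '' I) := by
    rw [h I hI, q2 _ (image_subset_iff.2 fun e he => (hg e (hI he)).1)]
    refine Iff.trans ?_ ⟨LinearIndepOn.image_of_comp g _, (·.comp_of_image (inj.mono hI))⟩
    rw [linearIndepOn_congr (v := (L ∘ x) ∘ g) (w := c • v) fun e he => (hg e (hI he)).2]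
    exact (LinearIndependent.units_smul_iff (fun e : I => v e) fun e : I => c e).symm
  refine ⟨K, Q, k1, fun I hI => ?_, q1.trans k1.symm, fun X hX => ?_, g '' M.E,
    image_subset_iff.2 fun e he => (hg e he).1, ?_, fun e he r => ?_, g, inj, rfl, ind⟩
  · rw [k2 I hI, linearIndepOn_iff_notMem_span, SimpleGraph.isAcyclic_iff_forall_adj_isBridge]
    simp only [SimpleGraph.isBridge_iff, SimpleGraph.deleteEdges,
      ← SimpleGraph.fromEdgeSet_sdiff, reach (F := F)]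
    refine ⟨fun q a b r => ?_, fun q e he => ?_⟩
    · have := q _ r.1
      rcases le_total a b with r | r
      · simpa [x, r] using this
      · rw [← neg_mem_iff]
        simpa [x, r] using this
    · have u : s(e.inf, e.sup) = e := by
        induction e with | _ a b
        rcases le_total a b with r | r <;> simp [r]
      have := @q e.inf e.sup ⟨show s(e.inf, e.sup) ∈ I by rwa [u], fun r => (k1 ▸ hI he) (u ▸ Sym2.mk_isDiag_iff.2 r)⟩
      rwa [u] at this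
  · rw [q2.flat] at hX
    refine k2.flat.2 ⟨k1 ▸ q1 ▸ hX.1, fun e he r => hX.2 e (q1 ▸ k1 ▸ he) ?_⟩
    rw [image_comp, ← map_span]
    exact mem_map_of_mem r
  · rintro _ ⟨e, he, rfl⟩ _ ⟨f, hf, rfl⟩
    exact image_pair g e f ▸ (ind _ (pair_subset he hf)).1 (s e he f hf)
  · have n := q2.ne r
    obtain ⟨f, hf, d, q⟩ := h2 e.inf e.sup (sub_ne_zero.1 (hL e ▸ n))
    refine ⟨g f, mem_image_of_mem g hf, or_iff_not_imp_left.2 fun u w => ?_⟩
    rw [pair_comm, q2 _ (pair_subset (hg f hf).1 he)] at w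
    refine (linearIndepOn_pair_iff _ (Ne.symm u) (w.ne_zero (.inl rfl))).1 w (d * (c f)⁻¹) ?_
    simp [hL e, q, (hg f hf).2, Units.smul_def, smul_smul]

section
variable {n m : ℕ} {v : Fin m → Fin n → F} [DecidableEq F] {M : Matroid (Fin m)}

def msk (v : Fin m → Fin n → F) (g : Fin n → F) : ℕ := Nat.ofBits fun e => decide (g ⬝ᵥ v e = 0)

theorem tb (g : Fin n → F) (e : Fin m) : (msk v g).testBit e = true ↔ g ⬝ᵥ v e = 0 := by
  simp [msk, Nat.testBit_ofBits_lt]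

def fn (g : Fin n → F) : (Fin n → F) →ₗ[F] (Fin 1 → F) := .pi fun _ => dotProductBilin F F g

omit [DecidableEq F] in
theorem fn0 {g x : Fin n → F} : fn g x = 0 ↔ g ⬝ᵥ x = 0 := by
  simp [fn, funext_iff]

omit [DecidableEq F] in
theorem fn1 (f : (Fin n → F) →ₗ[F] F) : ∃ g, ∀ x, f x = g ⬝ᵥ x :=
  ⟨fun i => f fun j => if i = j then 1 else 0, fun x => by
    rw [LinearMap.pi_apply_eq_sum_univ f x, dotProduct_comm]; rfl⟩

theorem tan1 {L : List ℕ} (a : ∀ g, msk v g ∈ L) (b : ∀ s ∈ L, ∀ t ∈ L, s &&& t = 0 ∨ s &&& t ∈ L)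
    (c : ∀ s ∈ L, ∃ g, msk v g = s) (C : Set (Fin m)) (hC : C.Nonempty) :
    ∃ g, (∀ e ∈ C, g ⬝ᵥ v e = 0) ∧ ∀ e, g ⬝ᵥ v e = 0 → v e ∈ span F (v '' C) := by
  obtain ⟨g, hg, mn⟩ := (measure fun g : Fin n → F => {e | g ⬝ᵥ v e = 0}.ncard).wf.has_min
    {g | ∀ e ∈ C, g ⬝ᵥ v e = 0} ⟨0, by simp⟩
  refine ⟨g, hg, fun e he => by_contra fun q => ?_⟩
  obtain ⟨f, f1, f2⟩ := exists_dual_map_eq_bot_of_notMem q inferInstance
  obtain ⟨w, hw⟩ := fn1 f
  have f3 (x) (hx : x ∈ C) : w ⬝ᵥ v x = 0 := (hw _).symm.trans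
    ((Submodule.eq_bot_iff _).1 f2 _ ⟨_, subset_span ⟨x, hx, rfl⟩, rfl⟩)
  have t (x : Fin m) : (msk v g &&& msk v w).testBit x = true ↔ g ⬝ᵥ v x = 0 ∧ w ⬝ᵥ v x = 0 := by
    rw [Nat.testBit_and, Bool.and_eq_true, tb, tb]
  rcases b _ (a g) _ (a w) with z | z
  · obtain ⟨x, hx⟩ := hC
    simpa [z] using (t x).2 ⟨hg x hx, f3 x hx⟩
  obtain ⟨u, hu⟩ := c _ z
  simp only [← hu, tb] at t
  exact mn u (fun x hx => (t x).2 ⟨hg x hx, f3 x hx⟩) (ncard_lt_ncard
    ⟨fun x hx => ((t x).1 hx).1, fun r => f1 ((hw _).trans ((t e).1 (r he)).2)⟩)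

omit [DecidableEq F] in
theorem Rp.trf (h : Rp F M v) (hE : M.E = univ) (g : Fin n → F) : M.IsFlat {e | g ⬝ᵥ v e = 0} :=
  h.flat.2 ⟨hE ▸ subset_univ _, fun e _ q => fn0.1 ((span_le.2 (by
    rintro _ ⟨x, hx, rfl⟩
    exact fn0.2 hx) : _ ≤ LinearMap.ker (fn g)) q)⟩

theorem Rp.tg [Fintype F] (h : Rp F M v) (hE : M.E = univ) (s : Simp M) {L : List ℕ}
    (a : ∀ g, msk v g ∈ L) (b : ∀ s ∈ L, ∀ t ∈ L, s &&& t = 0 ∨ s &&& t ∈ L)
    (c : ∀ s ∈ L, ∃ g, msk v g = s) (d : 0 ∉ L) : Tang F 1 M ∧ ∀ X, M.IsFlat X → X.Nonempty →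
      ∃ s ∈ L, ∀ e : Fin m, s.testBit e = true ↔ e ∈ X := by
  refine ⟨⟨⟨n, v, h⟩, s, fun q => ?_, fun N hN l => h.tang s (fun C _ hC => ?_) hN
    fun e he => by simpa using l e he e he⟩, fun X hX q => ?_⟩
  · obtain ⟨f, q⟩ := h.low.1 q
    obtain ⟨w, hw⟩ := fn1 (LinearMap.proj 0 ∘ₗ f)
    refine d ((Nat.eq_of_testBit_eq fun i => ?_ : msk v w = 0) ▸ a w)
    rw [Nat.zero_testBit, Bool.eq_false_iff]
    intro r
    by_cases z : i < m
    · exact q ⟨i, z⟩ (hE ▸ mem_univ _) (funext fun j => Subsingleton.elim 0 j ▸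
        (hw _).trans ((tb w ⟨i, z⟩).1 r))
    · simp [msk, Nat.testBit_ofBits_ge _ _ (not_lt.1 z)] at r
  · obtain ⟨g, p, q⟩ := tan1 a b c C hC
    exact ⟨fn g, fun e he => fn0.2 (p e he), fun e _ r => q e (fn0.1 r)⟩
  · obtain ⟨g, p, q⟩ := tan1 a b c X q
    exact ⟨_, a g, fun e => (tb g e).trans ⟨fun r => (h.flat.1 hX).2 e (hE ▸ mem_univ _) (q e r),
      p e⟩⟩

def Bad (m : ℕ) (L : List ℕ) (a z : ℕ) : Prop := a = z ∨ ∃ t ∈ L, a &&& t = 0 ∧ t &&& z = t ∧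
  ∃ x y : Fin m, t.testBit x = true ∧ x ≠ y ∧ t.testBit y = true

instance (L a z) : Decidable (Bad m L a z) := by unfold Bad; infer_instance

theorem Rp.nm (h : Rp F M v) (hE : M.E = univ) (s : Simp M) {L : List ℕ}
    (c : ∀ s ∈ L, ∃ g, msk v g = s) {A Z : Set (Fin m)} {a z : ℕ}
    (ha : ∀ e : Fin m, a.testBit e = true ↔ e ∈ A) (hz : ∀ e : Fin m, z.testBit e = true ↔ e ∈ Z)
    (mo : Modu M A) (sub : A ⊆ Z) (r : M.eRk A + 1 = M.eRk Z) : ¬ Bad m L a z := by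
  rintro (rfl | ⟨t, ht, t1, t2, x, y, hx, n, hy⟩)
  · rw [show Z = A from ext fun e => (hz e).symm.trans (ha e)] at r
    exact (ENat.lt_add_one_iff ((M.eRk_le_encard A).trans_lt
      (toFinite A).encard_lt_top).ne).2 le_rfl |>.ne' r
  obtain ⟨g, rfl⟩ := c t ht
  refine n (nomod s mo (h.trf hE g) (fun e p q => ?_) sub (fun e q => ?_) r
    ((tb g x).1 hx) ((tb g y).1 hy))
  · simpa [(ha e).2 p, (tb g e).2 q] using congrArg (·.testBit e) t1
  · simpa [(tb g e).2 q, hz] using congrArg (·.testBit e) t2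

theorem Rp.nmh (h : Rp F M v) (hE : M.E = univ) (s : Simp M) {L : List ℕ}
    (c : ∀ s ∈ L, ∃ g, msk v g = s)
    (T : ∀ X, M.IsFlat X → X.Nonempty → ∃ s ∈ L, ∀ e : Fin m, s.testBit e = true ↔ e ∈ X)
    {P : ℕ → Prop} (d : ∀ s ∈ 0 :: L, P s ∨ Bad m L s (2 ^ m - 1)) {H : Set (Fin m)}
    (hH : ModHyp M H) : ∃ s, P s ∧ ∀ e : Fin m, s.testBit e = true ↔ e ∈ H := by
  obtain ⟨a, p, q⟩ : ∃ s ∈ 0 :: L, ∀ e : Fin m, s.testBit e = true ↔ e ∈ H := by
    rcases H.eq_empty_or_nonempty with rfl | n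
    · exact ⟨0, by simp, by simp⟩
    obtain ⟨a, p, q⟩ := T H hH.1.1 n
    exact ⟨a, List.mem_cons_of_mem _ p, q⟩
  exact ⟨a, (d a p).resolve_right (h.nm hE s c q (by simp [hE]) hH.1 hH.1.1.subset_ground hH.2), q⟩

end

theorem rk_pos [Finite α] (s : Simp M) {e : α} (he : e ∈ M.E) :
    ∃ r : ℕ, M.eRk M.E = (r + 1 : ℕ) := by
  have h1 := ((M.eRk_le_encard M.E).trans_lt (toFinite _).encard_lt_top).ne
  have h2 := M.eRk_mono (singleton_subset_iff.2 he)
  rw [Indep.eRk_eq_encard (by simpa using s e he e he), encard_singleton] at h2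
  lift M.eRk M.E to ℕ using h1 with r
  exact ⟨r - 1, by norm_cast at h2 ⊢; omega⟩

theorem SS.hyp [Finite α] (h : SS M) (s : Simp M) {e : α} (he : e ∈ M.E) : ∃ H, ModHyp M H := by
  obtain ⟨r, hr⟩ := rk_pos s he
  obtain ⟨X, p, -⟩ := h
  have := p r (by rw [hr]; exact_mod_cast Nat.le_succ r)
  exact ⟨X r, this.1, by rw [this.2, hr]; rfl⟩

end Pool.Agent.H.MP_5f9c07_co
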