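import Mathlib
import Pool.Agent.H.MP_5f9c07_co.B

namespace Pool.Agent.H.MP_5f9c07_co

open Set Matroid

instance : Fact (Nat.Prime 5) := ⟨by norm_num⟩

def p5 : Fin 6 → Fin 3 → ZMod 5 := ![![0, 0, 0], ![1, 0, 0], ![0, 1, 0], ![0, 0, 1], ![1, 1, 0], ![1, 0, 1]]

def v5 : Fin 10 → Fin 3 → ZMod 5 := ![![1, 0, 0], ![0, 1, 0], ![0, 0, 1], ![1, 1, 0], ![1, 0, 1], ![1, 4, 0], ![1, 0, 4], ![0, 1,
  4], ![1, 4, 1], ![1, 1, 4]]

def L5 : List ℕ := [1, 2, 4, 8, 16, 32, 43, 48, 64, 72, 85, 128, 134, 152, 224, 256, 264, 274, 292, 320, 512, 524,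
  528, 544, 578, 897, 1023]

def G5 : List (Fin 3 → ZMod 5) := [![0, 1, 2], ![1, 0, 2], ![1, 2, 0], ![1, 4, 2], ![1, 2, 4], ![1, 1, 3], ![0, 0, 1], ![1, 1, 4],
  ![1, 3, 1], ![1, 4, 1], ![0, 1, 0], ![1, 2, 2], ![1, 0, 0], ![1, 4, 4], ![1, 1, 1], ![1, 3, 2],
  ![1, 4, 3], ![1, 0, 4], ![1, 1, 0], ![1, 2, 1], ![1, 2, 3], ![1, 4, 0], ![1, 3, 4], ![1, 1, 2],
  ![1, 0, 1], ![0, 1, 1], ![0, 0, 0]]

theorem ex5 : ∃ M : Matroid (Fin 10), M.E = univ ∧ Tang (ZMod 5) 1 M ∧ Normal 6 M ∧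
    ∀ H, ¬ ModHyp M H := by
  obtain ⟨M, hE, h⟩ := vm (ZMod 5) v5 univ
  have s : Simp M := h.simp (by simp only [hE, mem_univ, forall_const]; decide +kernel)
    (by simp only [hE, mem_univ, forall_const]; decide +kernel)
  have c : ∀ s ∈ L5, ∃ g, msk v5 g = s := fun s hs =>
    (List.mem_map.1 ((by decide +kernel : G5.map (msk v5) = L5) ▸ hs)).imp fun _ => And.right
  obtain ⟨t, T⟩ := h.tg hE s (by decide +kernel) (by decide +kernel) c (by decide +kernel)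
  refine ⟨M, hE, t, h.normal s p5 (by simp only [hE, mem_univ, forall_const]; decide +kernel)
    (by simp only [hE, mem_univ, true_and]; decide +kernel), fun H hH => ?_⟩
  exact (h.nmh hE s c T (P := fun _ => False) (by decide +kernel) hH).choose_spec.1

end Pool.Agent.H.MP_5f9c07_co
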