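import Mathlib
import Pool.Agent.H.MP_5f9c07_co.B

namespace Pool.Agent.H.MP_5f9c07_co

open Set Submodule Module Matroid

variable {α F V : Type} [Field F] [AddCommGroup V] [Module F V] {M : Matroid α} {v : α → V}

theorem modhyp_of (s : Simp M) {H : Set α} (h : M.IsFlat H) {y : α} (hy : y ∈ M.E) (q : y ∉ H)
    (d : ∀ x ∈ M.E, ∀ y ∈ M.E, x ∉ H → y ∉ H → x ≠ y → ∃ z ∈ H, z ∈ M.closure {x, y}) :
    ModHyp M H := by
  have u : insert y H ⊆ M.E := insert_subset hy h.subset_ground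
  refine ⟨modu_of s h d, ?_⟩
  rw [← eRk_insert_eq_add_one ⟨hy, h.closure.symm ▸ q⟩, ← M.eRk_closure_eq (insert _ _)]
  refine le_antisymm (M.eRk_mono (M.closure_subset_ground _)) (M.eRk_mono fun x hx => ?_)
  by_cases a : x ∈ H
  · exact M.subset_closure _ u (.inr a)
  by_cases b : x = y
  · exact M.subset_closure _ u (.inl b)
  obtain ⟨z, z1, z2⟩ := d x hx y hy a q b
  refine M.closure_subset_closure (pair_subset (.inr z1) (.inl rfl))
    (mem_closure_insert (fun r => ?_) z2)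
  have n : z ≠ y := fun r => q (r ▸ z1)
  exact ((s z (h.subset_ground z1) y hy).notMem_closure_sdiff_of_mem (.inl rfl)) (by
    rwa [insert_sdiff_of_mem _ (mem_singleton _), sdiff_singleton_eq_self (by simpa using n)])

theorem SS.two [Finite α] (h : SS M) (s : Simp M) {x y : α} (hx : x ∈ M.E) (hy : y ∈ M.E)
    (n : x ≠ y) : ∃ H A, ModHyp M H ∧ Modu M A ∧ A ⊆ H ∧ M.eRk A + 1 = M.eRk H := by
  obtain ⟨r, hr⟩ := rk_pos s hx
  have h2 := M.eRk_mono (pair_subset hx hy)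
  rw [(s x hx y hy).eRk_eq_encard, encard_pair n, hr] at h2
  obtain ⟨r, rfl⟩ : ∃ t, r = t + 1 := ⟨r - 1, by norm_cast at h2; omega⟩
  obtain ⟨X, p, q⟩ := h
  have a := p r (by rw [hr]; norm_cast; omega)
  have b := p (r + 1) (by rw [hr]; norm_cast; omega)
  exact ⟨X (r + 1), X r, ⟨b.1, by rw [b.2, hr]; rfl⟩, a.1, q r (by rw [hr]; norm_cast; omega),
    by rw [a.2, b.2]; rfl⟩

theorem Rp.up [Fintype α] [Fintype F] [FiniteDimensional F V] (h : Rp F M v) {k : ℕ}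
    {N : Matroid α} (hN : N ≤m M) (l : Low F k N) : 0 < chi N (Fintype.card F ^ k) := by
  obtain ⟨C, D, hC, -, -, rfl⟩ := hN.exists_eq_contract_delete_disjoint
  exact ((h.minor hC D).crit k).2 ((h.minor hC D).low.1 l)

theorem Rp.inj {U : Type} [AddCommGroup U] [Module F U] (h : Rp F M v) (f : V →ₗ[F] U)
    (hf : ∀ x ∈ span F (v '' M.E), f x = 0 → x = 0) : Rp F M (f ∘ v) := fun I hI =>
  (h I hI).trans ⟨fun q => LinearIndependent.map q (disjoint_def.2 fun x a b =>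
    hf x (span_mono (image_eq_range v I ▸ image_mono hI) a) b), LinearIndepOn.of_comp f⟩

theorem Rp.rep [FiniteDimensional F V] (h : Rp F M v) : Rep F M :=
  ⟨_, _, h.inj (Module.finBasis F V).equivFun.toLinearMap fun _ _ q => by simpa using q⟩

theorem Tang.lo [Fintype α] [Fintype F] {k : ℕ} (h : Tang F k M) {N : Matroid α} (hN : N <m M)
    (l : ∀ e ∈ N.E, N.Indep {e}) : 0 < chi N (Fintype.card F ^ k) := by
  obtain ⟨⟨n, v, h⟩, -, -, T⟩ := h
  obtain ⟨C, D, hC, -, -, e⟩ := hN.isMinor.exists_eq_contract_delete_disjoint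
  have r : Rp F N _ := e ▸ Rp.minor h hC D
  generalize (span F (v '' C)).mkQ ∘ v = w at r
  obtain ⟨S, hS, mx⟩ := (toFinite {S | S ⊆ N.E ∧ ∀ e ∈ S, ∀ f ∈ S, N.Indep {e, f}}).exists_maximal
    ⟨∅, by simp⟩
  have r2 : Rp F (N ＼ Sᶜ) w := fun I hI => by
    rw [delete_indep_iff, and_iff_left (disjoint_left.2 fun x q => (hI q).2)]
    exact r I fun x q => (hI q).1
  obtain ⟨f, hf⟩ := r2.low.1 (T _ (IsMinor.trans_isStrictMinor ⟨∅, Sᶜ, by simp⟩ hN)
    fun a ha b hb => delete_indep_iff.2 ⟨hS.2 a (not_not.1 ha.2) b (not_not.1 hb.2),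
      disjoint_left.2 (by rintro _ (rfl | rfl); exacts [ha.2, hb.2])⟩)
  refine (r.crit k).2 ⟨f, fun x hx q => ?_⟩
  have z : x ∉ S := fun z => hf x ⟨hx, not_not.2 z⟩ q
  refine z (mx ⟨insert_subset hx hS.1, ?_⟩ (subset_insert x S) (.inl rfl))
  have k (a) (ha : a ∈ S) : N.Indep {a, x} := by
    rw [r _ (pair_subset (hS.1 ha) hx), pair_comm, linearIndepOn_pair_iff _ (ne_of_mem_of_not_mem ha z).symm
      (r.ne (l x hx))]
    exact fun c u => hf a ⟨hS.1 ha, not_not.2 ha⟩ (by rw [← u, map_smul, q, smul_zero])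
  rintro a (rfl | ha) b (rfl | hb)
  exacts [by simpa using l _ hx, pair_comm _ _ ▸ k b hb, k a ha, hS.2 a ha b hb]

end Pool.Agent.H.MP_5f9c07_co
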