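import Mathlib
import Pool.Agent.H.MP_5f9c07_co.E

namespace Pool.Agent.H.MP_5f9c07_co

open Set Submodule Module Matroid

variable {F : Type} [Field F] {n m : ℕ} {v : Fin m → Fin n → F} [DecidableEq F]
  {M : Matroid (Fin m)} {L : List ℕ}

def bs (L : List ℕ) : ℕ := L.foldr (fun s b => b ||| 2 ^ s) 0

theorem memb {x : ℕ} (h : (bs L).testBit x = true) : x ∈ L := by
  induction L with
  | nil => simp [bs] at h
  | cons a l ih =>
    simp only [bs, List.foldr_cons, Nat.testBit_or, Bool.or_eq_true, Nat.testBit_two_pow,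
      decide_eq_true_eq] at h
    exact h.elim (fun h => List.mem_cons_of_mem _ (ih h)) fun h => h ▸ List.mem_cons_self

theorem clo {B : ℕ} (e : bs L = B)
    (h : (L.all fun s => L.all fun t => (B ||| 1).testBit (s &&& t)) = true) :
    ∀ s ∈ L, ∀ t ∈ L, s &&& t = 0 ∨ s &&& t ∈ L := fun s p t q => by
  have := List.all_eq_true.1 (List.all_eq_true.1 h s p) t q
  rw [Nat.testBit_or, Bool.or_eq_true, ← e, Nat.testBit_one_eq_true_iff_self_eq_zero] at this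
  exact this.symm.imp_right memb

theorem msm {c : F} (hc : c ≠ 0) (g : Fin n → F) : msk v (c • g) = msk v g := by
  simp [msk, hc]

theorem nm3 {v : Fin m → Fin 3 → F} (h1 : ∀ b c, msk v ![1, b, c] ∈ L)
    (h2 : ∀ c, msk v ![0, 1, c] ∈ L) (h3 : ∀ c, msk v ![0, 0, c] ∈ L) (g) : msk v g ∈ L := by
  by_cases a : g 0 = 0
  · by_cases b : g 1 = 0
    · convert h3 (g 2) using 2
      ext i
      fin_cases i <;> simp [a, b]
    rw [← msm (inv_ne_zero b)]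
    convert h2 ((g 1)⁻¹ * g 2) using 2
    ext i
    fin_cases i <;> simp [a, b]
  rw [← msm (inv_ne_zero a)]
  convert h1 ((g 0)⁻¹ * g 1) ((g 0)⁻¹ * g 2) using 2
  ext i
  fin_cases i <;> simp [a]

theorem nm4 {v : Fin m → Fin 4 → F} (h0 : ∀ a b c, msk v ![1, a, b, c] ∈ L)
    (h1 : ∀ b c, msk v ![0, 1, b, c] ∈ L) (h2 : ∀ c, msk v ![0, 0, 1, c] ∈ L)
    (h3 : ∀ c, msk v ![0, 0, 0, c] ∈ L) (g) : msk v g ∈ L := by
  by_cases a : g 0 = 0
  · by_cases b : g 1 = 0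
    · by_cases c : g 2 = 0
      · convert h3 (g 3) using 2
        ext i
        fin_cases i <;> simp [a, b, c]
      rw [← msm (inv_ne_zero c)]
      convert h2 ((g 2)⁻¹ * g 3) using 2
      ext i
      fin_cases i <;> simp [a, b, c]
    rw [← msm (inv_ne_zero b)]
    convert h1 ((g 1)⁻¹ * g 2) ((g 1)⁻¹ * g 3) using 2
    ext i
    fin_cases i <;> simp [a, b]
  rw [← msm (inv_ne_zero a)]
  convert h0 ((g 0)⁻¹ * g 1) ((g 0)⁻¹ * g 2) ((g 0)⁻¹ * g 3) using 2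
  ext i
  fin_cases i <;> simp [a]

theorem Rp.simp' [Nontrivial (Fin m)] (h : Rp F M v) (c : ∀ s ∈ L, ∃ g, msk v g = s)
    (d : ∀ e : Fin m, 2 ^ e.1 ∈ L) : Simp M := by
  have k (e : Fin m) : ∃ g, ∀ f, g ⬝ᵥ v f = 0 ↔ e = f := (c _ (d e)).imp fun g q f => by
    rw [← tb, q, Nat.testBit_two_pow, decide_eq_true_eq, Fin.val_inj]
  refine h.simp (fun e _ q => ?_) fun e _ f _ c q => ?_
  · obtain ⟨f, n⟩ := exists_ne e
    obtain ⟨g, hg⟩ := k f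
    exact n ((hg e).1 (by simp [q]))
  · obtain ⟨g, hg⟩ := k e
    exact (hg f).1 (by simp [← q, (hg e).2 rfl])

theorem Rp.mh (h : Rp F M v) (hE : M.E = univ) (s : Simp M)
    (T : ∀ X, M.IsFlat X → X.Nonempty → ∃ s ∈ L, ∀ e : Fin m, s.testBit e = true ↔ e ∈ X)
    (g : Fin n → F) (y : Fin m) (q : g ⬝ᵥ v y ≠ 0) {z : ℕ} (e : msk v g = z)
    (d : ∀ s ∈ L, s &&& z = 0 → ∀ x y : Fin m, s.testBit x = true → s.testBit y = true → x = y) :
    ∃ H, ModHyp M H := by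
  refine ⟨_, modhyp_of s (h.trf hE g) (hE ▸ mem_univ y) q fun x hx y hy _ _ n => ?_⟩
  have u := M.subset_closure _ (pair_subset hx hy)
  obtain ⟨a, p, r⟩ := T _ (M.isFlat_closure {x, y}) ⟨x, u (.inl rfl)⟩
  obtain ⟨i, hi⟩ := Nat.exists_testBit_of_ne_zero fun w =>
    n (d a p w x y ((r x).2 (u (.inl rfl))) ((r y).2 (u (.inr rfl))))
  rw [Nat.testBit_and, Bool.and_eq_true, ← e] at hi
  by_cases w : i < m
  · exact ⟨⟨i, w⟩, (tb g ⟨i, w⟩).1 hi.2, (r ⟨i, w⟩).1 hi.1⟩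
  · simp [msk, Nat.testBit_ofBits_ge _ _ (not_lt.1 w)] at hi

theorem Rp.nss [Nontrivial (Fin m)] (h : Rp F M v) (hE : M.E = univ) (s : Simp M)
    (c : ∀ s ∈ L, ∃ g, msk v g = s)
    (T : ∀ X, M.IsFlat X → X.Nonempty → ∃ s ∈ L, ∀ e : Fin m, s.testBit e = true ↔ e ∈ X)
    (d : ∀ z ∈ 0 :: L, Bad m L z (2 ^ m - 1) ∨ ∀ a ∈ 0 :: L, a &&& z = a → Bad m L a z) :
    ¬ SS M := fun q => by
  obtain ⟨x, y, n⟩ := exists_pair_ne (Fin m)
  obtain ⟨H, A, h1, h2, h3, h4⟩ := q.two s (hE ▸ mem_univ x) (hE ▸ mem_univ y) n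
  obtain ⟨z, p, hz⟩ := h.nmh hE s c T (fun z q => (d z q).symm) h1
  obtain ⟨a, r, ha⟩ : ∃ s ∈ 0 :: L, ∀ e : Fin m, s.testBit e = true ↔ e ∈ A := by
    rcases A.eq_empty_or_nonempty with rfl | n
    · exact ⟨0, by simp, by simp⟩
    obtain ⟨a, p, q⟩ := T A h2.1 n
    exact ⟨a, List.mem_cons_of_mem _ p, q⟩
  refine h.nm hE s c ha hz h2 h3 h4 (p a r (Nat.eq_of_testBit_eq fun i => ?_))
  rw [Nat.testBit_and, Bool.and_eq_left_iff_imp]
  intro w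
  by_cases b : i < m
  · exact (hz ⟨i, b⟩).2 (h3 ((ha ⟨i, b⟩).1 w))
  rcases List.mem_cons.1 r with rfl | r
  · simp at w
  obtain ⟨g, rfl⟩ := c a r
  simp [msk, Nat.testBit_ofBits_ge _ _ (not_lt.1 b)] at w

end Pool.Agent.H.MP_5f9c07_co
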