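import Mathlib
import Pool.Agent.H.MP_5f9c07_co.G

namespace Pool.Agent.H.MP_5f9c07_co

open Set Submodule Module Matroid

variable {α F V : Type} [Field F] [AddCommGroup V] [Module F V] {M : Matroid α} {v : α → V}

theorem Rp.dep (h : Rp F M v) (s : Simp M) {x y z : α} (hx : x ∈ M.E) (hy : y ∈ M.E) (hz : z ∈ M.E)
    (q : ¬ M.Indep {z, x, y}) : ∃ a b : F, a • v x + b • v y = v z := by
  rw [h _ (insert_subset hz (pair_subset hx hy)), linearIndepOn_insert_iff,
    and_iff_right ((h _ (pair_subset hx hy)).1 (s x hx y hy)), Classical.not_imp, image_pair] at q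
  exact mem_span_pair.1 q.1

theorem noU [Fintype α] [Fintype F] (t : Tang F 1 M) {N : Matroid α} (hN : N <m M) {m : ℕ}
    (hm : Fintype.card F < m + 2) {g : Fin (m + 2) → α} (i : g.Injective) (e : range g = N.E)
    (d : ∀ I, N.Indep (g '' I) ↔ I.ncard ≤ 2) : False := by
  have u (i) : g i ∈ N.E := e ▸ mem_range_self i
  have s : Simp N := by
    rw [Simp, ← e]
    rintro _ ⟨a, rfl⟩ _ ⟨b, rfl⟩
    exact image_pair g a b ▸ (d _).2 ((ncard_insert_le _ _).trans (by simp))
  have l := t.lo hN fun e he => by simpa using s e he e he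
  obtain ⟨n, v, h⟩ := t.1
  obtain ⟨C, D, hC, -, -, e⟩ := hN.isMinor.exists_eq_contract_delete_disjoint
  have r : Rp F N _ := e ▸ Rp.minor h hC D
  generalize (span F (v '' C)).mkQ ∘ v = w at r
  obtain ⟨f, hf⟩ := (r.crit 1).1 l
  have f0 (i) : f (w (g i)) 0 ≠ 0 := fun q => hf _ (u i) (funext fun j => Subsingleton.elim 0 j ▸ q)
  have (j : Fin (m + 2)) : ∃ a b : F, a • w (g 0) + b • w (g 1) = w (g j) := by
    by_cases a : j = 0
    · exact ⟨1, 0, by simp [a]⟩
    by_cases b : j = 1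
    · exact ⟨0, 1, by simp [b]⟩
    refine r.dep s (u _) (u _) (u _) fun q => ?_
    rw [← image_pair, ← image_insert_eq, d, ncard_insert_of_notMem (by simp [a, b]),
      ncard_pair (by simp)] at q
    omega
  choose a b k using this
  obtain ⟨x, y, n, q⟩ := Fintype.exists_ne_map_eq_of_card_lt (fun j => b j / f (w (g j)) 0)
    (by simpa using hm)
  have k2 (j) : a j * f (w (g 0)) 0 + b j * f (w (g 1)) 0 = f (w (g j)) 0 := by
    rw [← k j]; simp
  rw [div_eq_div_iff (f0 x) (f0 y)] at q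
  have q2 : a x * f (w (g y)) 0 = a y * f (w (g x)) 0 := mul_right_cancel₀ (f0 0) (by
    linear_combination f (w (g y)) 0 * k2 x - f (w (g x)) 0 * k2 y - f (w (g 1)) 0 * q)
  refine n (i (r.par s (u x) (u y) (c := f (w (g y)) 0 / f (w (g x)) 0) ?_))
  have := f0 x
  generalize f (w (g x)) 0 = p at *
  generalize f (w (g y)) 0 = o at *
  rw [← k x, ← k y, smul_add, smul_smul, smul_smul]
  congr 2 <;> field_simp <;> grind

open SimpleGraph in
theorem tri {W : Type} {a b c : W} (h1 : a ≠ b) (h2 : a ≠ c) (h3 : b ≠ c) :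
    ¬ (fromEdgeSet {s(b, c), s(a, b), s(a, c)}).IsAcyclic := fun h =>
  isAcyclic_iff_forall_adj_isBridge.1 h (show Adj _ b c by simp [h3])
    ((Adj.reachable (v := a) (by simp [*, h1.symm, h2.symm])).trans
      (Adj.reachable (by simp [*])))

open SimpleGraph in
theorem star : (fromEdgeSet {s((0 : Fin 4), 1), s(0, 2), s(0, 3)}).IsAcyclic := by
  refine (isTree_iff_connected_and_card.2 ⟨by decide, ?_⟩).isAcyclic
  rw [edgeSet_fromEdgeSet, Disjoint.sdiff_eq_left (by simp), Nat.card_coe_set_eq,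
    ncard_insert_of_notMem (by simp), ncard_pair (by simp)]
  simp

end Pool.Agent.H.MP_5f9c07_co
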