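import Mathlib
import Pool.Agent.H.MP_5f9c07_co.I

namespace Pool.Agent.H.MP_5f9c07_co

open Set Submodule Module Matroid

variable {α F V : Type} [Field F] [AddCommGroup V] [Module F V] {M : Matroid α} {v : α → V}

theorem Rp.norm [Finite α] [Fintype F] (h : Rp F M v) (s : Simp M) {k : ℕ}
    (B : ∀ f : V →ₗ[F] (Fin k → F), ∃ e ∈ M.E, f (v e) = 0)
    (T : ∀ u ∈ M.E, ∃ f : V →ₗ[F] (Fin k → F), ∀ e ∈ M.E, e ≠ u → f (v e) ≠ 0)
    {H : Set α} (hH : ModHyp M H) : Normal (Fintype.card F ^ k + 1) M := by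
  classical
  have hE := hH.1.1.subset_ground
  obtain ⟨u, hu, hu'⟩ : ∃ u ∈ M.E, u ∉ H := not_subset.1 fun q => by
    have := hH.2
    rw [subset_antisymm q hE] at this
    exact ((ENat.lt_add_one_iff ((M.eRk_le_encard H).trans_lt
      (toFinite H).encard_lt_top).ne).2 le_rfl).ne' this
  have D (x y) (hx : x ∈ M.E \ H) (hy : y ∈ M.E \ H) (n : x ≠ y) :
      ∃ z ∈ H, ∃ a b : F, a • v x + b • v y = v z := by
    have w := pair_subset hx.1 hy.1
    by_contra q
    refine n (nomod s hH.1 (M.isFlat_closure {x, y}) (fun z p r => q ⟨z, p, mem_span_pair.1 ?_⟩) hE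
      (M.closure_subset_ground _) hH.2 (M.subset_closure _ w (.inl rfl))
      (M.subset_closure _ w (.inr rfl)))
    exact image_pair v x y ▸ (h.cl w (hE p)).1 r
  obtain ⟨φ, f1, f2⟩ := exists_dual_map_eq_bot_of_notMem
    (mt ((h.flat.1 hH.1.1).2 u hu) hu') inferInstance
  have f3 (z) (hz : z ∈ H) : φ (v z) = 0 :=
    (Submodule.eq_bot_iff _).1 f2 _ ⟨_, subset_span ⟨z, hz, rfl⟩, rfl⟩
  have f4 (x) (hx : x ∈ M.E \ H) : φ (v x) ≠ 0 := fun q => by
    obtain ⟨z, hz, a, b, e⟩ := D x u hx ⟨hu, hu'⟩ fun r => f1 (r ▸ q)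
    have := congrArg φ e
    simp only [map_add, map_smul, q, f3 z hz, smul_zero, zero_add, smul_eq_zero, f1,
      or_false] at this
    exact hx.2 (h.par s hx.1 (hE hz) (c := a) (by simpa [this] using e) ▸ hz)
  let p (x : ↥(M.E \ H)) : V := (φ (v x))⁻¹ • v x
  have p1 (x) : φ (p x) = 1 := by simp [p, f4 _ x.2]
  have p2 (x : ↥(M.E \ H)) : v x = φ (v x) • p x := by simp [p, f4 _ x.2]
  have D2 (x y) (n : x ≠ y) : ∃ z ∈ H, ∃ a : F, v z = a • (p x - p y) := by
    obtain ⟨z, hz, a, b, e⟩ := D x y x.2 y.2 (Subtype.coe_ne_coe.2 n)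
    rw [p2 x, p2 y, smul_smul a, smul_smul b] at e
    have := congrArg φ e
    simp only [map_add, map_smul, p1, f3 z hz, smul_eq_mul, mul_one, add_eq_zero_iff_neg_eq] at this
    exact ⟨z, hz, a * φ (v x), by rw [← e, ← this, smul_sub, neg_smul, sub_eq_add_neg]⟩
  have inj (f : V →ₗ[F] (Fin k → F)) (q : ∀ z ∈ H, ∀ x y, ∀ a : F, v z = a • (p x - p y) →
      f (v z) ≠ 0) : Function.Injective fun x => f (p x) := fun x y e => by
    by_contra n
    obtain ⟨z, hz, a, r⟩ := D2 x y n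
    exact q z hz x y a r (by simp [r, show f (p x) = f (p y) from e])
  obtain ⟨f, hf⟩ := T u hu
  have f5 (z) (hz : z ∈ H) : f (v z) ≠ 0 := hf z (hE hz) (ne_of_mem_of_not_mem hz hu')
  have bij : Function.Bijective fun x => f (p x) := ⟨inj f fun z hz _ _ _ _ => f5 z hz, fun t => by
    obtain ⟨e, he, q⟩ := B (f - φ.smulRight t)
    have n : e ∉ H := fun r => f5 e r (by simpa [f3 e r] using q)
    refine ⟨⟨e, he, n⟩, ?_⟩
    simp only [LinearMap.sub_apply, LinearMap.smulRight_apply, sub_eq_zero] at q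
    simp [p, q, f4 e ⟨he, n⟩]⟩
  have := Fintype.ofFinite ↥(M.E \ H)
  have cd : Fintype.card ↥(M.E \ H) = Fintype.card F ^ k := by
    simpa using Fintype.card_of_bijective bij
  have D3 (z) (hz : z ∈ H) : ∃ x y, ∃ a : F, v z = a • (p x - p y) := by
    by_contra n
    obtain ⟨g, hg⟩ := T z (hE hz)
    obtain ⟨x, q⟩ := ((Fintype.bijective_iff_injective_and_card _).2 ⟨inj g fun w hw x y a r =>
      hg w (hE hw) fun e => n ⟨x, y, a, e ▸ r⟩, by simpa using cd⟩).2 0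
    exact hg x x.2.1 (ne_of_mem_of_not_mem hz x.2.2).symm (by
      rw [p2 x, map_smul, show g (p x) = 0 from q, smul_zero])
  let e : Fin (Fintype.card F ^ k + 1) ≃ Option ↥(M.E \ H) :=
    Fintype.equivOfCardEq (by simp [← cd])
  refine h.normal s (fun i => (e i).elim 0 p) (fun z hz => ?_) fun a b => ?_
  · by_cases q : z ∈ H
    · obtain ⟨x, y, a, r⟩ := D3 z q
      exact ⟨e.symm x, e.symm y, a, by simpa using r⟩
    · exact ⟨e.symm (some ⟨z, hz, q⟩), e.symm none, φ (v z), by simpa using p2 ⟨z, hz, q⟩⟩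
  generalize e a = a
  generalize e b = b
  rcases a with _ | x <;> rcases b with _ | y <;> intro n
  · simp at n
  · exact ⟨y, y.2.1, -(φ (v y))⁻¹, by simp [p]⟩
  · exact ⟨x, x.2.1, (φ (v x))⁻¹, by simp [p]⟩
  obtain ⟨z, hz, a, r⟩ := D2 x y fun q => n (q ▸ rfl)
  have : a ≠ 0 := fun q => h.ne' s (hE hz) (by simp [r, q])
  exact ⟨z, hE hz, a⁻¹, by simp [r, this]⟩

end Pool.Agent.H.MP_5f9c07_co
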